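import Pool.Agent.Lib_helper67.LR.Final
import Pool.Agent.Lib_helper94.XO.Defs

/-!
Part IV, first half: from the main theorem (no spread world) to constant restrictions of
codimension `A s ^ κ`.
-/

set_option autoImplicit false

namespace Pool.Agent.XO

open Finset Filter Pool.Agent.Lib_helper78.LR Pool.Agent.Lib_helper67.LR

section

variable {Ω : Type} [Fintype Ω] [DecidableEq Ω]

/-- the spectral norm -/
noncomputable def p4L (f : G Ω → ℝ) : ℝ := ∑ a, |nc f a|

/-- the law `|F| / L` -/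
noncomputable def p4p (f : G Ω → ℝ) (a : G Ω) : ℝ := |nc f a| / p4L f

/-- the signs -/
noncomputable def p4e (f : G Ω → ℝ) (a : G Ω) : ℝ := if 0 ≤ nc f a then 1 else -1

theorem p4L_ge (f : G Ω → ℝ) (hf : IsSign f) : 1 ≤ p4L f := fb_L_ge f hf

theorem p4L_pos (f : G Ω → ℝ) (hf : IsSign f) : 0 < p4L f := lt_of_lt_of_le one_pos (p4L_ge f hf)

theorem p4_abs_le (f : G Ω → ℝ) (hf : IsSign f) (a : G Ω) : |nc f a| ≤ 1 := by
  have h := parseval f hf
  have h1 : nc f a ^ 2 ≤ ∑ b, nc f b ^ 2 :=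
    Finset.single_le_sum (f := fun b => nc f b ^ 2) (fun _ _ => sq_nonneg _) (Finset.mem_univ a)
  rw [h] at h1
  exact abs_le_one_iff_mul_self_le_one.2 (by nlinarith)

theorem p4_corr (f : G Ω → ℝ) (hf : IsSign f) (g : G Ω) (hg : g ≠ 0) :
    ∑ c, nc f c * nc f (g - c) = 0 := by
  have h := corr_eq f hf g
  rw [if_neg hg] at h
  have h2 : ∀ c, nc f c * nc f (g - c) =
      (coef f c * coef f (c + g)) / (2 ^ Fintype.card Ω * 2 ^ Fintype.card Ω) := by
    intro c
    have e : g - c = c + g := by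
      rw [sub_eq_add_neg, Pool.Agent.Lib_helper78.LR.neg_eq_self, add_comm]
    unfold nc
    rw [e, div_mul_div_comm]
  rw [Finset.sum_congr rfl fun c _ => h2 c, ← Finset.sum_div, h, zero_div]

theorem p4_abs_mul (f : G Ω → ℝ) (a : G Ω) : |nc f a| * p4e f a = nc f a := by
  unfold p4e
  split_ifs with h
  · rw [abs_of_nonneg h, mul_one]
  · push Not at h
    rw [abs_of_neg h]
    ring

/-- the world of a sign function with a spread law -/
theorem p4_world (f : G Ω → ℝ) (hf : IsSign f) (s κ κ' κ2 : ℝ) (hs : 1 ≤ s)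
    (hc : ((spec f).card : ℝ) ≤ s) (hL : s ^ κ2 ≤ p4L f) (hS : SSpread (p4p f) s κ κ') :
    World (p4p f) (p4e f) s κ κ' κ2 := by
  have hLp := p4L_pos f hf
  refine { law := ⟨fun a => ?_, ?_⟩, card := ?_, spread := hS, sgn := fun c => ?_,
           bal := fun g hg => ?_, small := fun c => ?_ }
  · unfold p4p
    positivity
  · unfold p4p
    rw [← Finset.sum_div]
    exact div_self hLp.ne'
  · refine le_trans (le_of_eq ?_) hc
    congr 2
    ext a
    rw [Finset.mem_filter, mem_spec]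
    unfold p4p nc
    simp [hLp.ne']
  · unfold p4e
    split_ifs
    · exact Or.inl rfl
    · exact Or.inr rfl
  · have h1 : ∀ c, p4p f c * p4p f (g - c) * (p4e f c * p4e f (g - c)) =
        (nc f c * nc f (g - c)) / (p4L f * p4L f) := by
      intro c
      unfold p4p
      calc |nc f c| / p4L f * (|nc f (g - c)| / p4L f) * (p4e f c * p4e f (g - c)) =
          (|nc f c| * p4e f c) * (|nc f (g - c)| * p4e f (g - c)) / (p4L f * p4L f) := by
            field_simp
        _ = _ := by rw [p4_abs_mul, p4_abs_mul]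
    rw [Finset.sum_congr rfl fun c _ => h1 c, ← Finset.sum_div, p4_corr f hf g hg, zero_div]
  · unfold p4p
    have hs0 : 0 < s := by linarith
    rw [Real.rpow_neg hs0.le, ← one_div]
    exact div_le_div₀ zero_le_one (p4_abs_le f hf c) (Real.rpow_pos_of_pos hs0 _) hL

/-- orthogonality -/
theorem p4_orth (F : Finset (G Ω)) (c : G Ω → ℝ) :
    ∑ x : G Ω, (∑ α ∈ F, c α * chi α x) ^ 2 = 2 ^ Fintype.card Ω * ∑ α ∈ F, c α ^ 2 := by
  have h1 : ∀ x : G Ω, (∑ α ∈ F, c α * chi α x) ^ 2 =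
      ∑ α ∈ F, ∑ β ∈ F, c α * c β * chi x (α + β) := by
    intro x
    rw [sq, Finset.sum_mul_sum]
    refine Finset.sum_congr rfl fun α _ => Finset.sum_congr rfl fun β _ => ?_
    rw [chi_add, chi_comm x α, chi_comm x β]
    ring
  rw [Finset.sum_congr rfl fun x _ => h1 x, Finset.sum_comm, Finset.mul_sum]
  refine Finset.sum_congr rfl fun α hα => ?_
  rw [Finset.sum_comm]
  simp_rw [← Finset.mul_sum, sum_chi]
  rw [Finset.sum_eq_single α]
  · rw [if_pos (Pool.Agent.Lib_helper78.LR.add_self α)]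
    ring
  · intro β _ hne
    have : α + β ≠ 0 := by
      intro h0
      apply hne
      have h3 := eq_neg_of_add_eq_zero_left h0
      rw [Pool.Agent.Lib_helper78.LR.neg_eq_self] at h3
      exact h3.symm
    rw [if_neg this, mul_zero]
  · intro h
    exact absurd hα h

/-- killing a restriction kills the function -/
theorem p4_lift (f : G Ω → ℝ) (T : Finset (G Ω)) (π : G Ω →ₗ[ZMod 2] G Ω)
    (hfix : ∀ z, (∀ a ∈ T, chi a z = 1) → π z = z) (x₀ : G Ω) (c : ℝ)
    (h : Kill (fun x => f (x₀ + π x)) c) : Kill f (c + T.card) := by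
  classical
  obtain ⟨T', x₁, hT', hconst⟩ := h
  refine ⟨T ∪ T', x₀ + π x₁, ?_, ?_⟩
  · have h1 : ((T ∪ T').card : ℝ) ≤ T.card + T'.card := by
      exact_mod_cast Finset.card_union_le _ _
    linarith
  · intro y hy
    set y₀ : G Ω := x₀ + π x₁ with hy₀
    set z : G Ω := y₀ + y with hz
    have hyz : y = y₀ + z := by
      rw [hz, ← add_assoc, Pool.Agent.Lib_helper78.LR.add_self, zero_add]
    have hchi : ∀ a ∈ T ∪ T', chi a z = 1 := by
      intro a ha
      rw [hz, chi_add, hy a ha]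
      exact chi_mul_self a y₀
    have hπz : π z = z := hfix z fun a ha => hchi a (Finset.mem_union_left _ ha)
    have hg1 : f (x₀ + π (x₁ + z)) = f (x₀ + π x₁) := by
      refine hconst (x₁ + z) fun a ha => ?_
      rw [chi_add, hchi a (Finset.mem_union_right _ ha), mul_one]
    rw [map_add, hπz, ← add_assoc, ← hy₀, ← hyz] at hg1
    exact hg1

/-- a maximiser in every class -/
theorem p4_rep (ψ : G Ω →ₗ[ZMod 2] G Ω) (u : G Ω → ℝ) :
    ∃ r : G Ω → G Ω, ∀ α, ψ (r (ψ α)) = ψ α ∧ u α ≤ u (r (ψ α)) := by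
  classical
  have h : ∀ β : G Ω, ∃ ρ : G Ω, ∀ α, ψ α = β → (ψ ρ = β ∧ u α ≤ u ρ) := by
    intro β
    by_cases hne : (univ.filter fun α => ψ α = β).Nonempty
    · obtain ⟨ρ, hρ, hmax⟩ := Finset.exists_max_image _ u hne
      refine ⟨ρ, fun α hα => ⟨(Finset.mem_filter.1 hρ).2, hmax α ?_⟩⟩
      rw [Finset.mem_filter]
      exact ⟨Finset.mem_univ _, hα⟩
    · refine ⟨0, fun α hα => absurd ⟨α, ?_⟩ hne⟩
      rw [Finset.mem_filter]
      exact ⟨Finset.mem_univ _, hα⟩
  choose r hr using h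
  exact ⟨r, fun α => hr (ψ α) α rfl⟩

/-- one class -/
theorem p4_class (f : G Ω → ℝ) (ψ π : G Ω →ₗ[ZMod 2] G Ω)
    (hψ : ∀ a x, chi a (π x) = chi (ψ a) x) (β : G Ω) (a : ℝ)
    (ha : ∀ α, ψ α = β → |nc f α| ≤ a) (ha0 : 0 ≤ a) :
    ∑ x₀ : G Ω, |nc (fun x => f (x₀ + π x)) β| ≤
      2 ^ Fintype.card Ω * ((a + ∑ α with ψ α = β, |nc f α|) / 2) := by
  have h1 : ∀ x₀ : G Ω, nc (fun x => f (x₀ + π x)) β = ∑ α with ψ α = β, nc f α * chi α x₀ :=
    fun x₀ => nc_restriction f ψ π hψ x₀ β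
  have h2 : (∑ x₀ : G Ω, |nc (fun x => f (x₀ + π x)) β|) ^ 2 ≤
      (2 ^ Fintype.card Ω * ((a + ∑ α with ψ α = β, |nc f α|) / 2)) ^ 2 := by
    have hcard : ((univ : Finset (G Ω)).card : ℝ) = 2 ^ Fintype.card Ω := by
      rw [Finset.card_univ]
      simp [ZMod.card]
    calc (∑ x₀ : G Ω, |nc (fun x => f (x₀ + π x)) β|) ^ 2 ≤
        (univ : Finset (G Ω)).card * ∑ x₀ : G Ω, |nc (fun x => f (x₀ + π x)) β| ^ 2 :=
          sq_sum_le_card_mul_sum_sq
      _ = 2 ^ Fintype.card Ω * ∑ x₀ : G Ω, (∑ α with ψ α = β, nc f α * chi α x₀) ^ 2 := by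
          rw [hcard]
          congr 1
          refine Finset.sum_congr rfl fun x₀ _ => ?_
          rw [sq_abs, h1]
      _ = 2 ^ Fintype.card Ω * (2 ^ Fintype.card Ω * ∑ α with ψ α = β, nc f α ^ 2) := by
          rw [p4_orth]
      _ ≤ 2 ^ Fintype.card Ω * (2 ^ Fintype.card Ω * (a * ∑ α with ψ α = β, |nc f α|)) := by
          refine mul_le_mul_of_nonneg_left (mul_le_mul_of_nonneg_left ?_ (by positivity))
            (by positivity)
          rw [Finset.mul_sum]
          refine Finset.sum_le_sum fun α hα => ?_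
          have h3 := ha α (Finset.mem_filter.1 hα).2
          have h4 : nc f α ^ 2 = |nc f α| * |nc f α| := by rw [← sq_abs, sq]
          rw [h4]
          exact mul_le_mul_of_nonneg_right h3 (abs_nonneg _)
      _ ≤ (2 ^ Fintype.card Ω * ((a + ∑ α with ψ α = β, |nc f α|) / 2)) ^ 2 := by
          set t := ∑ α with ψ α = β, |nc f α|
          have h5 : a * t ≤ ((a + t) / 2) ^ 2 := by nlinarith [sq_nonneg (a - t)]
          have h6 : (0 : ℝ) ≤ 2 ^ Fintype.card Ω * 2 ^ Fintype.card Ω := by positivity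
          calc (2 : ℝ) ^ Fintype.card Ω * (2 ^ Fintype.card Ω * (a * t)) =
              (2 ^ Fintype.card Ω * 2 ^ Fintype.card Ω) * (a * t) := by ring
            _ ≤ (2 ^ Fintype.card Ω * 2 ^ Fintype.card Ω) * ((a + t) / 2) ^ 2 :=
                mul_le_mul_of_nonneg_left h5 h6
            _ = _ := by ring
  have h3 : 0 ≤ ∑ α with ψ α = β, |nc f α| := Finset.sum_nonneg fun _ _ => abs_nonneg _
  exact le_of_sq_le_sq h2 (by positivity)

/-- the average of the spectral norms of the restrictions -/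
theorem p4_avg (f : G Ω → ℝ) (hf : IsSign f) (ψ π : G Ω →ₗ[ZMod 2] G Ω)
    (hψ : ∀ a x, chi a (π x) = chi (ψ a) x) (r : G Ω → G Ω)
    (hr : ∀ α, ψ (r (ψ α)) = ψ α ∧ |nc f α| ≤ |nc f (r (ψ α))|) :
    ∑ x₀ : G Ω, p4L (fun x => f (x₀ + π x)) ≤
      2 ^ Fintype.card Ω *
        (p4L f * (1 - (∑ c ∈ univ.filter fun α => α ≠ r (ψ α), p4p f c) / 2)) := by
  classical
  set B := (univ : Finset (G Ω)).image ψ with hB
  -- the classes that are empty
  have h0 : ∀ β, β ∉ B → ∀ x₀ : G Ω, nc (fun x => f (x₀ + π x)) β = 0 := by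
    intro β hβ x₀
    rw [nc_restriction f ψ π hψ x₀ β]
    refine Finset.sum_eq_zero fun α hα => ?_
    exact absurd (Finset.mem_image.2 ⟨α, Finset.mem_univ _, (Finset.mem_filter.1 hα).2⟩) hβ
  have h1 : ∑ x₀ : G Ω, p4L (fun x => f (x₀ + π x)) =
      ∑ β ∈ B, ∑ x₀ : G Ω, |nc (fun x => f (x₀ + π x)) β| := by
    unfold p4L
    rw [Finset.sum_comm]
    symm
    apply Finset.sum_subset (Finset.subset_univ _)
    intro β _ hβ
    refine Finset.sum_eq_zero fun x₀ _ => ?_
    rw [h0 β hβ x₀, abs_zero]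
  have h2 : ∑ β ∈ B, ∑ x₀ : G Ω, |nc (fun x => f (x₀ + π x)) β| ≤
      ∑ β ∈ B, 2 ^ Fintype.card Ω * ((|nc f (r β)| + ∑ α with ψ α = β, |nc f α|) / 2) := by
    refine Finset.sum_le_sum fun β hβ => ?_
    refine p4_class f ψ π hψ β _ (fun α hα => ?_) (abs_nonneg _)
    have := (hr α).2
    rwa [hα] at this
  have h3 : ∑ β ∈ B, ∑ α with ψ α = β, |nc f α| = p4L f := by
    unfold p4L
    exact Finset.sum_fiberwise_of_maps_to
      (fun α _ => Finset.mem_image_of_mem ψ (Finset.mem_univ α)) _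
  have h4 : ∑ β ∈ B, |nc f (r β)| = p4L f - ∑ c ∈ univ.filter fun α => α ≠ r (ψ α), |nc f c| := by
    have h5 : ∑ β ∈ B, |nc f (r β)| = ∑ c ∈ univ.filter fun α => α = r (ψ α), |nc f c| := by
      refine Finset.sum_bij (fun β _ => r β) ?_ ?_ ?_ ?_
      · intro β hβ
        obtain ⟨α, _, rfl⟩ := Finset.mem_image.1 hβ
        rw [Finset.mem_filter]
        refine ⟨Finset.mem_univ _, ?_⟩
        rw [(hr α).1]
      · intro β hβ β' hβ' h
        obtain ⟨α, _, rfl⟩ := Finset.mem_image.1 hβ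
        obtain ⟨α', _, rfl⟩ := Finset.mem_image.1 hβ'
        have h' : r (ψ α) = r (ψ α') := h
        rw [← (hr α).1, ← (hr α').1, h']
      · intro c hc
        refine ⟨ψ c, Finset.mem_image_of_mem ψ (Finset.mem_univ c), ?_⟩
        exact (Finset.mem_filter.1 hc).2.symm
      · intro β _
        rfl
    have h6 := Finset.sum_filter_add_sum_filter_not (univ : Finset (G Ω))
      (fun α => α = r (ψ α)) (fun c => |nc f c|)
    rw [h5]
    unfold p4L
    linarith
  have hLp := p4L_pos f hf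
  have h7 : p4L f * ∑ c ∈ univ.filter (fun α => α ≠ r (ψ α)), p4p f c =
      ∑ c ∈ univ.filter fun α => α ≠ r (ψ α), |nc f c| := by
    unfold p4p
    rw [← Finset.sum_div]
    field_simp
  rw [h1]
  refine h2.trans (le_of_eq ?_)
  rw [← Finset.mul_sum, ← Finset.sum_div, Finset.sum_add_distrib, h3, h4, ← h7]
  ring

/-- failure of the spread condition: a restriction with smaller spectral norm -/
theorem p4_step (f : G Ω → ℝ) (hf : IsSign f) (s κ κ' : ℝ) (hS : ¬ SSpread (p4p f) s κ κ') :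
    ∃ g : G Ω → ℝ, IsSign g ∧ (spec g).card ≤ (spec f).card ∧
      p4L g ≤ p4L f * (1 - s ^ (-κ') / 2) ∧ ∀ c, Kill g c → Kill f (c + s ^ κ) := by
  classical
  unfold SSpread at hS
  push Not at hS
  obtain ⟨U, hU, hLt⟩ := hS
  -- a finite set that spans `U`
  obtain ⟨T, hTU, hTc⟩ : ∃ T : Finset (G Ω), Submodule.span (ZMod 2) (T : Set (G Ω)) = U ∧
      T.card ≤ Module.finrank (ZMod 2) U := by
    let b := Module.finBasis (ZMod 2) U
    refine ⟨univ.image fun i => (b i : G Ω), ?_, ?_⟩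
    · have h1 : ((univ.image fun i => (b i : G Ω) : Finset (G Ω)) : Set (G Ω)) =
          U.subtype '' Set.range b := by
        ext x
        simp [Set.mem_image, Set.mem_range]
      rw [h1, Submodule.span_image, b.span_eq, Submodule.map_top, Submodule.range_subtype]
    · refine Finset.card_image_le.trans ?_
      rw [Finset.card_univ, Fintype.card_fin]
  obtain ⟨ψ, π, hψπ, hker, hfix⟩ := exists_restriction T
  obtain ⟨r, hr⟩ := p4_rep ψ (fun a => |nc f a|)
  have hr' : ∀ α, ψ (r (ψ α)) = ψ α ∧ |nc f α| ≤ |nc f (r (ψ α))| := hr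
  have hmass := hLt (univ.filter fun α => α ≠ r (ψ α)) (by
    intro c c' _ _ hne hcc
    by_contra hcon
    push Not at hcon
    have h1 : c = r (ψ c) := by
      by_contra h
      exact hcon.1 (Finset.mem_filter.2 ⟨Finset.mem_univ _, h⟩)
    have h2 : c' = r (ψ c') := by
      by_contra h
      exact hcon.2 (Finset.mem_filter.2 ⟨Finset.mem_univ _, h⟩)
    have h3 : ψ c = ψ c' := by
      rw [← hTU] at hcc
      have h4 := (hker _).2 hcc
      rw [map_add] at h4
      have h5 := eq_neg_of_add_eq_zero_left h4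
      rwa [Pool.Agent.Lib_helper78.LR.neg_eq_self] at h5
    exact hne (by rw [h1, h2, h3]))
  have havg := p4_avg f hf ψ π hψπ r hr'
  set m := ∑ c ∈ univ.filter fun α => α ≠ r (ψ α), p4p f c with hm
  have hcard : ((univ : Finset (G Ω)).card : ℝ) = 2 ^ Fintype.card Ω := by
    rw [Finset.card_univ]
    simp [ZMod.card]
  obtain ⟨x₀, -, hx₀⟩ : ∃ x₀ ∈ (univ : Finset (G Ω)),
      p4L (fun x => f (x₀ + π x)) ≤ p4L f * (1 - m / 2) := by
    refine Finset.exists_le_of_sum_le ⟨0, Finset.mem_univ _⟩ ?_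
    rw [Finset.sum_const, nsmul_eq_mul, hcard]
    exact havg
  refine ⟨fun x => f (x₀ + π x), fun x => hf _, ?_, ?_, ?_⟩
  · have hspec : spec (fun x => f (x₀ + π x)) ⊆ (spec f).image ψ := by
      intro β hβ
      have h1 := nc_restriction f ψ π hψπ x₀ β
      have h2 : nc (fun x => f (x₀ + π x)) β ≠ 0 := by
        rw [mem_spec] at hβ
        unfold nc
        exact div_ne_zero hβ (by positivity)
      rw [h1] at h2
      obtain ⟨α, hα, hα'⟩ := Finset.exists_ne_zero_of_sum_ne_zero h2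
      rw [Finset.mem_image]
      refine ⟨α, ?_, (Finset.mem_filter.1 hα).2⟩
      rw [mem_spec]
      intro h0
      apply hα'
      unfold nc
      rw [h0]; simp
    exact (Finset.card_le_card hspec).trans Finset.card_image_le
  · refine hx₀.trans ?_
    refine mul_le_mul_of_nonneg_left ?_ (p4L_pos f hf).le
    linarith
  · intro c hc
    refine (p4_lift f T π hfix x₀ c hc).mono ?_
    have h1 : (T.card : ℝ) ≤ Module.finrank (ZMod 2) U := by exact_mod_cast hTc
    linarith

/-- the iteration -/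
theorem p4_iter (s κ κ' κ2 : ℝ) (hs : 1 ≤ s) (hκ' : 0 < κ')
    (hw : ∀ (V : Type) [AddCommGroup V] [Module (ZMod 2) V]
      [Fintype V] [DecidableEq V] (p e : V → ℝ), ¬ World p e s κ κ' κ2) (m : ℕ) :
    ∀ f : G Ω → ℝ, IsSign f → ((spec f).card : ℝ) ≤ s →
      p4L f * (1 - s ^ (-κ') / 2) ^ m ≤ s ^ κ2 →
      Kill f (m * s ^ κ + (s ^ κ2 / 2 * Real.log (s + 1) + 1)) := by
  have hs0 : 0 < s := by linarith
  have hflat : ∀ (m : ℕ) (f : G Ω → ℝ), IsSign f → ((spec f).card : ℝ) ≤ s → p4L f ≤ s ^ κ2 →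
      Kill f (m * s ^ κ + (s ^ κ2 / 2 * Real.log (s + 1) + 1)) := by
    intro m f hf hc hL
    refine (flat_bound f hf).mono ?_
    have h1 : Real.log ((spec f).card + 1) ≤ Real.log (s + 1) :=
      Real.log_le_log (by positivity) (by linarith)
    have h2 : 0 ≤ Real.log (((spec f).card : ℝ) + 1) := Real.log_nonneg (by
      have : (0 : ℝ) ≤ (spec f).card := Nat.cast_nonneg _
      linarith)
    have h3 : (∑ a, |nc f a|) / 2 * Real.log ((spec f).card + 1) ≤
        s ^ κ2 / 2 * Real.log (s + 1) := by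
      refine mul_le_mul ?_ h1 h2 (by positivity)
      have : p4L f = ∑ a, |nc f a| := rfl
      linarith
    have h4 : 0 ≤ (m : ℝ) * s ^ κ := by positivity
    linarith
  induction m with
  | zero =>
    intro f hf hc hL
    rw [pow_zero, mul_one] at hL
    exact hflat 0 f hf hc hL
  | succ m ih =>
    intro f hf hc hL
    rcases le_or_gt (p4L f) (s ^ κ2) with hle | hgt
    · exact hflat _ f hf hc hle
    · have hns : ¬ SSpread (p4p f) s κ κ' := fun hS =>
        hw (G Ω) (p4p f) (p4e f) (p4_world f hf s κ κ' κ2 hs hc hgt.le hS)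
      obtain ⟨g, hg, hgc, hgL, hgK⟩ := p4_step f hf s κ κ' hns
      have h1 : ((spec g).card : ℝ) ≤ s := le_trans (by exact_mod_cast hgc) hc
      have hq : 0 ≤ 1 - s ^ (-κ') / 2 := by
        have : s ^ (-κ') ≤ 1 := Real.rpow_le_one_of_one_le_of_nonpos hs (by linarith)
        linarith
      have h2 : p4L g * (1 - s ^ (-κ') / 2) ^ m ≤ s ^ κ2 := by
        refine le_trans ?_ hL
        calc p4L g * (1 - s ^ (-κ') / 2) ^ m ≤
            (p4L f * (1 - s ^ (-κ') / 2)) * (1 - s ^ (-κ') / 2) ^ m :=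
              mul_le_mul_of_nonneg_right hgL (pow_nonneg hq _)
          _ = p4L f * (1 - s ^ (-κ') / 2) ^ (m + 1) := by ring
      refine (hgK _ (ih g hg h1 h2)).mono ?_
      push_cast
      linarith

end

/-- the statement of the main theorem -/
def NoWorld : Prop := ∀ κ κ' κ2 : ℝ, 0 < κ → 0 < κ' → 0 < κ2 →
    ∀ᶠ s : ℝ in atTop, ∀ (V : Type) [AddCommGroup V] [Module (ZMod 2) V]
      [Fintype V] [DecidableEq V] (p e : V → ℝ), ¬ World p e s κ κ' κ2

theorem p4_num (κ s : ℝ) (hκ : 0 < κ) (hκ1 : κ ≤ 1) (hs : 1 ≤ s) (m : ℕ)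
    (hm : (m : ℝ) ≤ 2 * s ^ (κ / 4) * Real.log s + 1) :
    m * s ^ (κ / 4) + (s ^ (κ / 2) / 2 * Real.log (s + 1) + 1) ≤ (12 / κ + 2) * s ^ κ := by
  have hs0 : 0 < s := by linarith
  have h4 : 0 < κ / 4 := by positivity
  have h1 : Real.log s ≤ s ^ (κ / 4) / (κ / 4) := Real.log_le_rpow_div hs0.le h4
  have h2 : Real.log (s + 1) ≤ (2 * s) ^ (κ / 4) / (κ / 4) :=
    (Real.log_le_log (by linarith) (by linarith)).trans
      (Real.log_le_rpow_div (by linarith) h4)
  have h3 : (2 * s) ^ (κ / 4) ≤ 2 * s ^ (κ / 4) := by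
    rw [Real.mul_rpow (by norm_num) hs0.le]
    refine mul_le_mul_of_nonneg_right ?_ (by positivity)
    calc (2 : ℝ) ^ (κ / 4) ≤ 2 ^ (1 : ℝ) :=
          Real.rpow_le_rpow_of_exponent_le (by norm_num) (by linarith)
      _ = 2 := Real.rpow_one 2
  have e2 : s ^ (κ / 4) * s ^ (κ / 4) * s ^ (κ / 4) = s ^ (3 * κ / 4) := by
    rw [← Real.rpow_add hs0, ← Real.rpow_add hs0]
    congr 1
    ring
  have e3 : s ^ (κ / 2) * s ^ (κ / 4) = s ^ (3 * κ / 4) := by
    rw [← Real.rpow_add hs0]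
    congr 1
    ring
  have e4 : s ^ (3 * κ / 4) ≤ s ^ κ := Real.rpow_le_rpow_of_exponent_le hs (by linarith)
  have e5 : s ^ (κ / 4) ≤ s ^ κ := Real.rpow_le_rpow_of_exponent_le hs (by linarith)
  have e6 : 1 ≤ s ^ κ := Real.one_le_rpow hs hκ.le
  have h0 : 0 < s ^ (κ / 4) := by positivity
  have h02 : 0 < s ^ (κ / 2) := by positivity
  have f1 : (m : ℝ) * s ^ (κ / 4) ≤ 8 / κ * s ^ κ + s ^ κ := by
    calc (m : ℝ) * s ^ (κ / 4) ≤ (2 * s ^ (κ / 4) * Real.log s + 1) * s ^ (κ / 4) :=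
          mul_le_mul_of_nonneg_right hm h0.le
      _ ≤ (2 * s ^ (κ / 4) * (s ^ (κ / 4) / (κ / 4)) + 1) * s ^ (κ / 4) := by
          gcongr
      _ = 8 / κ * (s ^ (κ / 4) * s ^ (κ / 4) * s ^ (κ / 4)) + s ^ (κ / 4) := by
          field_simp
          ring
      _ ≤ 8 / κ * s ^ κ + s ^ κ := by
          rw [e2]
          have : 8 / κ * s ^ (3 * κ / 4) ≤ 8 / κ * s ^ κ :=
            mul_le_mul_of_nonneg_left e4 (by positivity)
          linarith
  have f2 : s ^ (κ / 2) / 2 * Real.log (s + 1) ≤ 4 / κ * s ^ κ := by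
    calc s ^ (κ / 2) / 2 * Real.log (s + 1) ≤
          s ^ (κ / 2) / 2 * (2 * s ^ (κ / 4) / (κ / 4)) := by
          refine mul_le_mul_of_nonneg_left (h2.trans ?_) (by positivity)
          exact div_le_div_of_nonneg_right h3 h4.le
      _ = 4 / κ * (s ^ (κ / 2) * s ^ (κ / 4)) := by
          field_simp
      _ ≤ 4 / κ * s ^ κ := by
          rw [e3]
          exact mul_le_mul_of_nonneg_left e4 (by positivity)
  have f3 : (12 / κ + 2) * s ^ κ = 8 / κ * s ^ κ + s ^ κ + (4 / κ * s ^ κ + s ^ κ) := by ring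
  rw [f3]
  linarith

/-- every sign function is constant on an affine subspace of codimension `A s ^ κ` -/
theorem kill_eps (hnw : NoWorld) (κ : ℝ) (hκ : 0 < κ) (hκ1 : κ ≤ 1) :
    ∃ A : ℝ, 0 ≤ A ∧ ∀ {Ω : Type} [Fintype Ω] [DecidableEq Ω] (f : G Ω → ℝ),
      IsSign f → Kill f (A * ((spec f).card : ℝ) ^ κ) := by
  obtain ⟨s₀, hs₀⟩ := Filter.eventually_atTop.1
    (hnw (κ / 4) (κ / 4) (κ / 2) (by positivity) (by positivity) (by positivity))
  refine ⟨max s₀ (12 / κ + 2), le_max_of_le_right (by positivity), ?_⟩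
  intro Ω _ _ f hf
  have hne : (spec f).Nonempty := by
    apply spec_nonempty
    intro h0
    have := hf 0
    rw [h0] at this
    simp at this
  set s : ℝ := ((spec f).card : ℝ) with hs
  have hs1 : 1 ≤ s := by
    rw [hs]
    exact_mod_cast hne.card_pos
  have hs0 : 0 < s := by linarith
  have hsκ : 1 ≤ s ^ κ := Real.one_le_rpow hs1 hκ.le
  rcases lt_or_ge s s₀ with hlt | hge
  · refine (kill_card f).mono ?_
    calc s ≤ max s₀ (12 / κ + 2) * 1 := by
          rw [mul_one]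
          exact hlt.le.trans (le_max_left _ _)
      _ ≤ max s₀ (12 / κ + 2) * s ^ κ :=
          mul_le_mul_of_nonneg_left hsκ (le_max_of_le_right (by positivity))
  · have hlog : 0 ≤ Real.log s := Real.log_nonneg hs1
    set x : ℝ := s ^ (-(κ / 4)) / 2 with hx
    have hx0 : 0 < x := by positivity
    have hx1 : x ≤ 1 / 2 := by
      have : s ^ (-(κ / 4)) ≤ 1 := Real.rpow_le_one_of_one_le_of_nonpos hs1 (by linarith)
      rw [hx]
      linarith
    set m : ℕ := ⌈2 * s ^ (κ / 4) * Real.log s⌉₊ with hm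
    have hm1 : 2 * s ^ (κ / 4) * Real.log s ≤ m := Nat.le_ceil _
    have hm2 : (m : ℝ) ≤ 2 * s ^ (κ / 4) * Real.log s + 1 :=
      (Nat.ceil_lt_add_one (by positivity)).le
    have hL : p4L f ≤ s := by
      have h1 := sum_abs_sq_le f hf (spec f)
      rw [← sum_abs_nc] at h1
      have h2 : (∑ a, |nc f a|) ^ 2 ≤ s ^ 2 := h1.trans (by nlinarith)
      exact le_of_sq_le_sq h2 hs0.le
    have hpow : (1 - x) ^ m ≤ 1 / s := by
      calc (1 - x) ^ m ≤ (Real.exp (-x)) ^ m := by
            refine pow_le_pow_left₀ (by linarith) ?_ m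
            have := Real.add_one_le_exp (-x)
            linarith
        _ = Real.exp (-(x * m)) := by
            rw [← Real.exp_nat_mul]
            congr 1
            ring
        _ ≤ Real.exp (-Real.log s) := by
            refine Real.exp_le_exp.2 (neg_le_neg ?_)
            have h1 : x * (2 * s ^ (κ / 4) * Real.log s) ≤ x * m :=
              mul_le_mul_of_nonneg_left hm1 hx0.le
            have h2 : s ^ (-(κ / 4)) * s ^ (κ / 4) = 1 := by
              rw [← Real.rpow_add hs0]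
              simp
            have h3 : x * (2 * s ^ (κ / 4) * Real.log s) = Real.log s := by
              rw [hx]
              calc s ^ (-(κ / 4)) / 2 * (2 * s ^ (κ / 4) * Real.log s) =
                  (s ^ (-(κ / 4)) * s ^ (κ / 4)) * Real.log s := by ring
                _ = Real.log s := by rw [h2, one_mul]
            linarith
        _ = 1 / s := by
            rw [Real.exp_neg, Real.exp_log hs0, one_div]
    have hit := p4_iter s (κ / 4) (κ / 4) (κ / 2) hs1 (by positivity) (hs₀ s hge) m f hf le_rfl (by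
      calc p4L f * (1 - s ^ (-(κ / 4)) / 2) ^ m ≤ s * (1 / s) :=
            mul_le_mul hL hpow (pow_nonneg (by linarith) _) hs0.le
        _ = 1 := by field_simp
        _ ≤ s ^ (κ / 2) := Real.one_le_rpow hs1 (by positivity))
    refine hit.mono ((p4_num κ s hκ hκ1 hs1 m hm2).trans ?_)
    exact mul_le_mul_of_nonneg_right (le_max_right _ _) (by positivity)

end Pool.Agent.XO
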